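import Pool.Agent.H95.AED.FinB

namespace Pool.Agent.Results.MP_5cda12_co.LayeredGraphs

/-- Let the vertices of a finite simple graph `G` be distributed over levels `0, …, l`, `l ≥ 1`, such that every vertex
`v` has at most `k` neighbours on its own level and the higher levels together. Then for every
`N ≥ Δ(G)` with `N ≥ 10^20 (k + l) l²` the graph has an acyclic proper edge-colouring with `N` colours; so
`a'(G) = Δ(G)` if `Δ(G) ≥ 10^20 (k + l) l²`. The colour of the edge `uv` is `c u v = c v u`; the values of `c` on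
pairs which are not edges play no role. -/
theorem result (V : Type) [Fintype V] [DecidableEq V] (G : SimpleGraph V) [DecidableRel G.Adj]
    (r : V → ℕ) (k l N : ℕ) (hl : 1 ≤ l) (hr : ∀ v, r v ≤ l)
    (hup : ∀ v, (Finset.univ.filter (fun u => G.Adj v u ∧ r v ≤ r u)).card ≤ k)
    (hN : G.maxDegree ≤ N) (hk : 10 ^ 20 * (k + l) * l ^ 2 ≤ N) :
    ∃ c : V → V → Fin N,
      (∀ u v : V, c u v = c v u) ∧
      (∀ u v w : V, G.Adj u v → G.Adj u w → v ≠ w → c u v ≠ c u w) ∧
      (∀ (u : V) (p : G.Walk u u), p.IsCycle →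
          3 ≤ (p.darts.map (fun d => c d.toProd.1 d.toProd.2)).toFinset.card) :=
  Pool.Agent.H95.AED.finalB V G r k l N hl hr hup hN hk

end Pool.Agent.Results.MP_5cda12_co.LayeredGraphs
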