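import Pool.Agent.H77.AC.Main

namespace Pool.Agent.Results.MP_5cda12_co.AsymptoticDelta

/-- For every `ε > 0` there is `Δ₀` such that every finite simple graph `G` of maximum degree
`Δ(G) ≥ Δ₀` has an acyclic proper edge-colouring with at most `(1 + ε) Δ(G)` colours; that is
`a'(G) ≤ (1 + o(1)) Δ(G)`. The colour of the edge `uv` is `c u v = c v u`; the values of `c` on pairs
which are not edges play no role. -/
theorem result (ε : ℝ) (hε : 0 < ε) : ∃ Δ₀ : ℕ, ∀ (V : Type) [Fintype V] [DecidableEq V]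
    (G : SimpleGraph V) [DecidableRel G.Adj], Δ₀ ≤ G.maxDegree →
    ∃ N : ℕ, (N : ℝ) ≤ (1 + ε) * (G.maxDegree : ℝ) ∧ ∃ c : V → V → Fin N,
      (∀ u v : V, c u v = c v u) ∧
      (∀ u v w : V, G.Adj u v → G.Adj u w → v ≠ w → c u v ≠ c u w) ∧
      (∀ (u : V) (p : G.Walk u u), p.IsCycle →
          3 ≤ (p.darts.map (fun d => c d.toProd.1 d.toProd.2)).toFinset.card) := by
  obtain ⟨D₀, h⟩ := Pool.Agent.H77.AC.main ε hε
  refine ⟨D₀, ?_⟩
  intro V _ _ G _ hD
  refine h V inferInstance inferInstance G G.maxDegree hD ?_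
  intro v
  refine le_trans (le_of_eq ?_) (G.degree_le_maxDegree v)
  rw [← SimpleGraph.card_neighborFinset_eq_degree]
  congr 1
  ext u
  simp

end Pool.Agent.Results.MP_5cda12_co.AsymptoticDelta
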