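import Pool.Agent.H95.AED.FinA

namespace Pool.Agent.Results.MP_5cda12_co.LogSquaredDegeneracy

/-- Every finite simple graph `G` of degeneracy at most `k` (every non-empty vertex set `s` contains a
vertex with at most `k` neighbours in `s`) has, for every `N ≥ Δ(G)` with `N ≥ 10^21 k (⌊log₂ k⌋ + 2)²`,
an acyclic proper edge-colouring with `N + 1` colours; that is
`a'(G) ≤ max (Δ(G)) (10^21 k (⌊log₂ k⌋ + 2)²) + 1`. The colour of the edge `uv` is `c u v = c v u`; the values of
`c` on pairs which are not edges play no role. -/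
theorem result (V : Type) [Fintype V] [DecidableEq V] (G : SimpleGraph V) [DecidableRel G.Adj]
    (k N : ℕ) (hd : ∀ s : Finset V, s.Nonempty → ∃ v ∈ s, (s.filter (fun w => G.Adj v w)).card ≤ k)
    (hN : G.maxDegree ≤ N) (hk : 10 ^ 21 * k * (Nat.log 2 k + 2) ^ 2 ≤ N) :
    ∃ c : V → V → Fin (N + 1),
      (∀ u v : V, c u v = c v u) ∧
      (∀ u v w : V, G.Adj u v → G.Adj u w → v ≠ w → c u v ≠ c u w) ∧
      (∀ (u : V) (p : G.Walk u u), p.IsCycle →
          3 ≤ (p.darts.map (fun d => c d.toProd.1 d.toProd.2)).toFinset.card) :=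
  Pool.Agent.H95.AED.finalA V G k N hd hN hk

end Pool.Agent.Results.MP_5cda12_co.LogSquaredDegeneracy
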