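import Pool.Agent.H5.SRG.Main

namespace Pool.Agent.Results.MP_5cda12_co.SparseRandomGraphs

open Pool.Agent.H5.SRG

/-- For every `A > 0`, all `n ≥ n₀(A)` and all `m` with `n / (2 log n) ≤ m ≤ 10^(-27) n log n`, all but a proportion of at most
`n^(-A)` of the graphs with `n` vertices and `m` edges satisfy `a'(G) = Δ(G)`: the random graph with `n` vertices and `m` edges
has an acyclic proper edge-colouring with `Δ(G)` colours with probability at least `1 - n^(-A)`. -/
theorem result (A : ℝ) (hA : 0 < A) : ∃ n₀ : ℕ, ∀ n m : ℕ, n₀ ≤ n →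
    n / (2 * Real.log n) ≤ m → m ≤ 10 ^ (-27 : ℤ) * n * Real.log n →
    (Set.ncard {G : SimpleGraph (Fin n) | G.edgeSet.ncard = m ∧ ¬ Sharp G} : ℝ) ≤
      (n : ℝ) ^ (-A) * Set.ncard {G : SimpleGraph (Fin n) | G.edgeSet.ncard = m} :=
  Pool.Agent.H5.SRG.final A hA

end Pool.Agent.Results.MP_5cda12_co.SparseRandomGraphs
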